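import Pool.Agent.H12.KTH.Stmts

/-!
# Row NUM of the board `kth`: the numbers, `m ≥ 7`
-/

set_option autoImplicit false

namespace Pool.KTH.N97


theorem num_core (m : ℝ) (hm : 7 ≤ m) (S L' S' Y' τ e0 : ℝ) (he : 0 ≤ e0)
    (hL : m * (1 - e0) - 1 / 10000 ≤ L') (hS : S' ≤ S - m * e0 + 1 / 10000)
    (hY : Y' ≤ e0 + 1 / 10000) (ht : τ ≤ m * e0 + 1 / 10000)
    (h : (583189504 / 100000000 : ℝ) * (L' + 2) ≤ (976928512 / 100000000) * (S' + 1) + 0.6752 +
      (121930496 / 100000000) * Y' - 2.3504 * (121930496 / 583189504) +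
      1.6752 * (121930496 / 583189504) / m *
        max 0 (τ + 2 * ((5.7008 * (S' + 1) - 3.3504 * (L' + 2) + Y') / 0.6752)) +
      0.6752 * (121930496 / 583189504) / m * max 0 (τ + (2 * (S' + 1) - L' - 3 + Y')) +
      1 / 10000) :
    (m + 0.28) / 1.6752 ≤ S := by
  by_contra hlt
  rw [not_le, lt_div_iff₀ (by norm_num)] at hlt
  obtain ⟨w, hw⟩ : ∃ w, w = m * e0 := ⟨_, rfl⟩
  have hw7 : 7 * e0 ≤ w := by rw [hw]; nlinarith
  have hL' : m - w - 1 / 10000 ≤ L' := by rw [hw]; linarith [hL]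
  rw [← hw] at hS ht
  obtain ⟨r, hr⟩ : ∃ r, r = 1 / m := ⟨_, rfl⟩
  have hm0 : 0 < m := by linarith
  have hr0 : 0 < r := by rw [hr]; positivity
  have hrm : r * m = 1 := by rw [hr]; field_simp
  have hr7 : r ≤ 1 / 7 := by
    rw [hr]; exact one_div_le_one_div_of_le (by norm_num) hm
  obtain ⟨x, hx⟩ : ∃ x, x = max 0 (τ + 2 * ((5.7008 * (S' + 1) - 3.3504 * (L' + 2) + Y') / 0.6752)) :=
    ⟨_, rfl⟩
  obtain ⟨y, hy⟩ : ∃ y, y = max 0 (τ + (2 * (S' + 1) - L' - 3 + Y')) := ⟨_, rfl⟩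
  have hxU : x ≤ 0.1561 * m - 0.136 := by
    rw [hx]
    apply max_le
    · linarith
    · have hz : (5.7008 * (S' + 1) - 3.3504 * (L' + 2) + Y') / 0.6752 ≤
          (0.1561 * m - 0.136 - (w + 1 / 10000)) / 2 := by
        rw [div_le_iff₀ (by norm_num)]
        linarith
      linarith
  have hyU : y ≤ 0.1939 * m - 0.665 + e0 := by
    rw [hy]
    apply max_le
    · linarith
    · linarith
  rw [← hx, ← hy] at h
  have e1 : 1.6752 * (121930496 / 583189504) / m * x = 1.6752 * (121930496 / 583189504) * (r * x) := by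
    rw [hr]; ring
  have e2 : 0.6752 * (121930496 / 583189504) / m * y = 0.6752 * (121930496 / 583189504) * (r * y) := by
    rw [hr]; ring
  rw [e1, e2] at h
  have hx' : r * x ≤ 0.1561 - 0.136 * r := by nlinarith
  have hy' : r * y ≤ 0.1939 - 0.665 * r + e0 / 7 := by nlinarith
  have key : 0 < 0.00018 * m - 0.0065 + 0.1416 * r := by
    have h1 : 0 < 0.00018 * m ^ 2 - 0.0065 * m + 0.1416 := by nlinarith [sq_nonneg (m - 28)]
    have h2 : 0.00018 * m - 0.0065 + 0.1416 * r = r * (0.00018 * m ^ 2 - 0.0065 * m + 0.1416) := by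
      have : r * (0.00018 * m ^ 2 - 0.0065 * m + 0.1416) =
        0.00018 * m * (r * m) - 0.0065 * (r * m) + 0.1416 * r := by ring
      rw [this, hrm]; ring
    rw [h2]; positivity
  linarith

end Pool.KTH.N97

namespace Pool.KTH

open Pool.Agent.H24.KTH (kp)

/-- NUM: the numbers. -/
theorem num : NUMStmt := by
  intro m hm
  refine ⟨1 / 10000, by norm_num, ?_⟩
  intro S L' S' Y' τ e0 he _ hL hS hY ht h
  have hm' : (7 : ℝ) ≤ (m : ℝ) := by exact_mod_cast hm
  refine N97.num_core (m : ℝ) hm' S L' S' Y' τ e0 he hL hS hY ht ?_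
  have hD : DD aa = 583189504 / 100000000 := by norm_num [DD, aa]
  have hP : PP aa = 976928512 / 100000000 := by norm_num [PP, aa]
  have hk : kh aa = 121930496 / 100000000 := by norm_num [kh, aa]
  have hkp : kp aa = 121930496 / 583189504 := by norm_num [kp, aa]
  have ha1 : (4 * aa - 1 : ℝ) = 5.7008 := by norm_num [aa]
  have ha2 : (2 * aa : ℝ) = 3.3504 := by norm_num [aa]
  have ha3 : (aa - 1 : ℝ) = 0.6752 := by norm_num [aa]
  rw [hD, hP, hk, hkp, ha1, ha2, ha3] at h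
  have ha4 : (3.3504 - 1 : ℝ) = 2.3504 := by norm_num
  rw [ha4] at h
  have ha5 : (aa : ℝ) = 1.6752 := rfl
  rw [ha5] at h
  exact h

end Pool.KTH
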